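import Mathlib

/-!
# The second polynomial numerical index of `L₁[0,1]`

The second polynomial numerical index of the real space `L₁[0,1]` is `1/2`, and that of the complex
space `L₁[0,1]` is at most `1/2`. In particular it is not `1` in either case.
-/

set_option autoImplicit false

open MeasureTheory

namespace Pool.Agent.Results.MP_6cf06e_an.IntegrableFunctions

/-- The norm `sup_{‖x‖ ≤ 1} ‖P x‖` of the homogeneous polynomial `P x = A (x, …, x)`. -/
noncomputable def polyNorm {𝕜 : Type*} [RCLike 𝕜] {X : Type*} [NormedAddCommGroup X]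
    [NormedSpace 𝕜 X] {k : ℕ} (A : ContinuousMultilinearMap 𝕜 (fun _ : Fin k => X) X) : ℝ :=
  sSup {r : ℝ | ∃ x : X, ‖x‖ ≤ 1 ∧ r = ‖A fun _ => x‖}

/-- The numerical radius of the homogeneous polynomial `P x = A (x, …, x)`: the supremum of
`|f (P x)|` over all pairs `(x, f)` of norm one vectors and norm one functionals with `f x = 1`. -/
noncomputable def numRadius {𝕜 : Type*} [RCLike 𝕜] {X : Type*} [NormedAddCommGroup X]
    [NormedSpace 𝕜 X] {k : ℕ} (A : ContinuousMultilinearMap 𝕜 (fun _ : Fin k => X) X) : ℝ :=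
  sSup {r : ℝ | ∃ (x : X) (f : X →L[𝕜] 𝕜), ‖x‖ = 1 ∧ ‖f‖ = 1 ∧ f x = 1 ∧ r = ‖f (A fun _ => x)‖}

/-- The `k`-th polynomial numerical index of the normed space `X` over `𝕜`: the infimum of the
numerical radii of the `k`-homogeneous polynomials of norm one. -/
noncomputable def polyIndex (𝕜 : Type*) [RCLike 𝕜] (X : Type*) [NormedAddCommGroup X]
    [NormedSpace 𝕜 X] (k : ℕ) : ℝ :=
  sInf {r : ℝ | ∃ A : ContinuousMultilinearMap 𝕜 (fun _ : Fin k => X) X,
    polyNorm A = 1 ∧ r = numRadius A}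

/-- The space `L₁[0,1]` of (classes of) integrable functions on `[0,1]` with values in `𝕜`. -/
abbrev L1I (𝕜 : Type*) [RCLike 𝕜] : Type _ := Lp 𝕜 1 (volume.restrict (Set.Icc (0 : ℝ) 1))

section general

variable {𝕜 : Type*} [RCLike 𝕜] {X : Type*} [NormedAddCommGroup X] [NormedSpace 𝕜 X] {k : ℕ}

lemma norm_apply_le (A : ContinuousMultilinearMap 𝕜 (fun _ : Fin k => X) X) {x : X}
    (hx : ‖x‖ ≤ 1) : ‖A fun _ => x‖ ≤ ‖A‖ := by
  refine (A.le_opNorm _).trans ?_
  have h1 : (∏ _i : Fin k, ‖x‖) ≤ 1 := by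
    rw [Finset.prod_const]
    exact pow_le_one₀ (norm_nonneg _) hx
  calc ‖A‖ * ∏ _i : Fin k, ‖x‖ ≤ ‖A‖ * 1 := mul_le_mul_of_nonneg_left h1 (norm_nonneg _)
    _ = ‖A‖ := mul_one _

lemma bdd_numRadius (A : ContinuousMultilinearMap 𝕜 (fun _ : Fin k => X) X) :
    BddAbove {r : ℝ | ∃ (x : X) (f : X →L[𝕜] 𝕜), ‖x‖ = 1 ∧ ‖f‖ = 1 ∧ f x = 1 ∧
      r = ‖f (A fun _ => x)‖} := by
  refine ⟨‖A‖, ?_⟩
  rintro r ⟨x, f, hx, hf, -, rfl⟩
  refine (f.le_opNorm _).trans ?_
  rw [hf, one_mul]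
  exact norm_apply_le A hx.le

lemma le_numRadius (A : ContinuousMultilinearMap 𝕜 (fun _ : Fin k => X) X) {x : X}
    {f : X →L[𝕜] 𝕜} (hx : ‖x‖ = 1) (hf : ‖f‖ = 1) (hfx : f x = 1) :
    ‖f (A fun _ => x)‖ ≤ numRadius A :=
  le_csSup (bdd_numRadius A) ⟨x, f, hx, hf, hfx, rfl⟩

lemma numRadius_nonneg (A : ContinuousMultilinearMap 𝕜 (fun _ : Fin k => X) X) :
    0 ≤ numRadius A := by
  refine Real.sSup_nonneg ?_
  rintro r ⟨x, f, -, -, -, rfl⟩
  exact norm_nonneg _

/-- The homogeneous form of the previous bound. -/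
lemma hom_bound (A : ContinuousMultilinearMap 𝕜 (fun _ : Fin 2 => X) X) {y : X}
    {f : X →L[𝕜] 𝕜} (hf : ‖f‖ = 1) (hfy : f y = (‖y‖ : 𝕜)) :
    ‖f (A fun _ => y)‖ ≤ numRadius A * ‖y‖ ^ 2 := by
  by_cases hy : y = 0
  · have h1 : A (fun _ => y) = 0 := by
      rw [hy]; exact A.map_coord_zero 0 rfl
    rw [h1, map_zero, norm_zero, hy, norm_zero]
    simp
  · have hn : ‖y‖ ≠ 0 := norm_ne_zero_iff.2 hy
    have hn' : ((‖y‖ : ℝ) : 𝕜) ≠ 0 := by exact_mod_cast hn
    set u : X := ((‖y‖ : ℝ) : 𝕜)⁻¹ • y with hu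
    have hu1 : ‖u‖ = 1 := by
      rw [hu, norm_smul, norm_inv, RCLike.norm_ofReal, abs_norm, inv_mul_cancel₀ hn]
    have hfu : f u = 1 := by
      rw [hu, map_smul, hfy, smul_eq_mul, inv_mul_cancel₀ hn']
    have hyu : (fun _ : Fin 2 => y) = fun _ => ((‖y‖ : ℝ) : 𝕜) • u := by
      funext _
      rw [hu, smul_smul, mul_inv_cancel₀ hn', one_smul]
    have h1 : A (fun _ => y) = (((‖y‖ : ℝ) : 𝕜) ^ 2) • A (fun _ => u) := by
      rw [hyu]
      have := A.map_smul_univ (fun _ : Fin 2 => ((‖y‖ : ℝ) : 𝕜)) (fun _ => u)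
      simpa using this
    rw [h1, map_smul, norm_smul, norm_pow, RCLike.norm_ofReal, abs_norm, mul_comm]
    exact mul_le_mul_of_nonneg_right (le_numRadius A hu1 hf hfu) (by positivity)

/-- The bilinear map `(x, y) ↦ g(x) T y`. -/
noncomputable def term (g : X →L[𝕜] 𝕜) (T : X →L[𝕜] X) :
    ContinuousMultilinearMap 𝕜 (fun _ : Fin 2 => X) X where
  toFun m := g (m 0) • T (m 1)
  map_update_add' := by
    intro _ m i x y
    fin_cases i <;> simp [add_smul, smul_add]
  map_update_smul' := by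
    intro _ m i c x
    fin_cases i
    · simp [mul_smul]
    · simp [smul_comm c]
  cont := by fun_prop

lemma term_apply (g : X →L[𝕜] 𝕜) (T : X →L[𝕜] X) (x : X) :
    term g T (fun _ => x) = g x • T x := rfl

/-- A space with a nontrivial `L`-projection `p` has second polynomial numerical index at most
`1/2`, real or complex. -/
theorem index_le_half (p : X →L[𝕜] X) (hp : ∀ x, ‖x‖ = ‖p x‖ + ‖x - p x‖) {y z : X}
    (hy : p y = y) (hy1 : ‖y‖ = 1) (hz : p z = 0) (hz1 : ‖z‖ = 1) :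
    (∃ A : ContinuousMultilinearMap 𝕜 (fun _ : Fin 2 => X) X,
      polyNorm A = 1 ∧ numRadius A ≤ 1 / 2) := by
  obtain ⟨a, ha1, ha2⟩ := exists_dual_vector 𝕜 y (by rw [hy1]; exact one_ne_zero)
  obtain ⟨b, hb1, hb2⟩ := exists_dual_vector 𝕜 z (by rw [hz1]; exact one_ne_zero)
  set p' : X →L[𝕜] X := ContinuousLinearMap.id 𝕜 X - p with hp'
  have hp'x : ∀ x, p' x = x - p x := fun x => rfl
  set u : X →L[𝕜] 𝕜 := a.comp p with hu
  set v : X →L[𝕜] 𝕜 := b.comp p' with hv
  have hux : ∀ x, ‖u x‖ ≤ ‖p x‖ := fun x => by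
    have h := a.le_opNorm (p x)
    rw [ha1, one_mul] at h
    exact h
  have hvx : ∀ x, ‖v x‖ ≤ ‖x - p x‖ := fun x => by
    have h := b.le_opNorm (x - p x)
    rw [hb1, one_mul] at h
    exact h
  set c : 𝕜 := (((1 / 2 : ℝ)) : 𝕜) with hc
  have hcn : ‖c‖ = 1 / 2 := by
    rw [hc, RCLike.norm_ofReal]; norm_num
  set d : 𝕜 := (((2 : ℝ)) : 𝕜) with hd
  have hdn : ‖d‖ = 2 := by
    rw [hd, RCLike.norm_ofReal]; norm_num
  set A : ContinuousMultilinearMap 𝕜 (fun _ : Fin 2 => X) X :=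
    term (c • u + d • v) p - term (u + c • v) p' with hA
  have hAx : ∀ x, A (fun _ => x) = (c * u x + d * v x) • p x - (u x + c * v x) • (x - p x) :=
    fun x => rfl
  refine ⟨A, le_antisymm (Real.sSup_le ?_ zero_le_one) ?_, Real.sSup_le ?_ (by norm_num)⟩
  · rintro r ⟨x, hx, rfl⟩
    rw [hAx]
    have h1 := hux x
    have h2 := hvx x
    have h3 := hp x
    have e1 : ‖c * u x + d * v x‖ ≤ 1 / 2 * ‖p x‖ + 2 * ‖x - p x‖ := by
      refine (norm_add_le _ _).trans ?_
      rw [norm_mul, norm_mul, hcn, hdn]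
      linarith
    have e2 : ‖u x + c * v x‖ ≤ ‖p x‖ + 1 / 2 * ‖x - p x‖ := by
      refine (norm_add_le _ _).trans ?_
      rw [norm_mul, hcn]
      linarith
    refine (norm_sub_le _ _).trans ?_
    rw [norm_smul, norm_smul]
    have n1 := norm_nonneg (p x)
    have n2 := norm_nonneg (x - p x)
    calc ‖c * u x + d * v x‖ * ‖p x‖ + ‖u x + c * v x‖ * ‖x - p x‖
        ≤ (1 / 2 * ‖p x‖ + 2 * ‖x - p x‖) * ‖p x‖ +
          (‖p x‖ + 1 / 2 * ‖x - p x‖) * ‖x - p x‖ := by gcongr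
      _ ≤ 1 := by
        set m := ‖p x‖
        set n := ‖x - p x‖
        nlinarith [sq_nonneg (m - n)]
  · -- the norm is attained at `(y + z) / 2`
    have hua : u y = 1 := by
      change a (p y) = 1
      rw [hy, ha2, hy1]; simp
    have huz : u z = 0 := by
      change a (p z) = 0
      rw [hz, map_zero]
    have hvy : v y = 0 := by
      change b (y - p y) = 0
      rw [hy, sub_self, map_zero]
    have hvz : v z = 1 := by
      change b (z - p z) = 1
      rw [hz, sub_zero, hb2, hz1]; simp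
    set x : X := c • y + c • z with hx
    have hpx : p x = c • y := by
      rw [hx, map_add, map_smul, map_smul, hy, hz, smul_zero, add_zero]
    have hqx : x - p x = c • z := by rw [hpx, hx]; abel
    have hux' : u x = c := by
      rw [hx, map_add, map_smul, map_smul, hua, huz]; simp
    have hvx' : v x = c := by
      rw [hx, map_add, map_smul, map_smul, hvy, hvz]; simp
    have hxn : ‖x‖ = 1 := by
      rw [hp x, hqx, hpx, norm_smul, norm_smul, hy1, hz1, hcn]; norm_num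
    have e3 : c * c + d * c = (((5 / 4 : ℝ)) : 𝕜) := by
      rw [hc, hd, ← RCLike.ofReal_mul, ← RCLike.ofReal_mul, ← RCLike.ofReal_add]; norm_num
    have e4 : c + c * c = (((3 / 4 : ℝ)) : 𝕜) := by
      rw [hc, ← RCLike.ofReal_mul, ← RCLike.ofReal_add]; norm_num
    have hAval : A (fun _ => x) = (c * c + d * c) • c • y - (c + c * c) • c • z := by
      rw [hAx, hqx, hpx, hux', hvx']
    have hAn : ‖A fun _ => x‖ = 1 := by
      rw [hAval, hp]
      have e1 : p ((c * c + d * c) • c • y - (c + c * c) • c • z) = (c * c + d * c) • c • y := by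
        rw [map_sub, map_smul, map_smul, map_smul, map_smul, hy, hz]
        simp
      rw [e1]
      have e2 : (c * c + d * c) • c • y - (c + c * c) • c • z - (c * c + d * c) • c • y
          = -((c + c * c) • c • z) := by abel
      rw [e2, norm_neg, norm_smul, norm_smul, norm_smul, norm_smul, hy1, hz1, hcn,
        e3, e4, RCLike.norm_ofReal, RCLike.norm_ofReal]
      norm_num [abs_of_pos]
    rw [← hAn]
    refine le_csSup ⟨‖A‖, ?_⟩ ⟨x, hxn.le, rfl⟩
    rintro r ⟨w, hw, rfl⟩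
    exact norm_apply_le A hw
  · rintro r ⟨x, f, hx, hf, hfx, rfl⟩
    rw [hAx]
    have hm := hp x
    rw [hx] at hm
    set m := ‖p x‖ with hmdef
    set n := ‖x - p x‖ with hndef
    have n1 : 0 ≤ m := norm_nonneg _
    have n2 : 0 ≤ n := norm_nonneg _
    have f1 : ‖f (p x)‖ ≤ m := by
      refine (f.le_opNorm _).trans ?_
      rw [hf, one_mul]
    have f2 : ‖f (x - p x)‖ ≤ n := by
      refine (f.le_opNorm _).trans ?_
      rw [hf, one_mul]
    have hsum : f (p x) + f (x - p x) = 1 := by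
      rw [← map_add, ← hfx]; congr 1; abel
    have hre : RCLike.re (f (p x)) + RCLike.re (f (x - p x)) = 1 := by
      rw [← map_add, hsum, RCLike.one_re]
    have r1 : RCLike.re (f (p x)) = m := by
      have g1 := RCLike.re_le_norm (f (p x))
      have g2 := RCLike.re_le_norm (f (x - p x))
      linarith
    have r2 : RCLike.re (f (x - p x)) = n := by linarith
    have v1 : f (p x) = (m : 𝕜) := by
      rw [← r1]
      exact (RCLike.re_eq_self_of_le (by rw [r1]; exact f1)).symm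
    have v2 : f (x - p x) = (n : 𝕜) := by
      rw [← r2]
      exact (RCLike.re_eq_self_of_le (by rw [r2]; exact f2)).symm
    have e : f ((c * u x + d * v x) • p x - (u x + c * v x) • (x - p x))
        = u x * (((1 / 2 * m - n : ℝ)) : 𝕜) + v x * (((2 * m - 1 / 2 * n : ℝ)) : 𝕜) := by
      rw [map_sub, map_smul, map_smul, v1, v2, smul_eq_mul, smul_eq_mul, hc, hd]
      push_cast
      ring
    rw [e]
    refine (norm_add_le _ _).trans ?_
    rw [norm_mul, norm_mul, RCLike.norm_ofReal, RCLike.norm_ofReal]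
    have hu' : ‖u x‖ ≤ m := hux x
    have hv' : ‖v x‖ ≤ n := hvx x
    calc ‖u x‖ * |1 / 2 * m - n| + ‖v x‖ * |2 * m - 1 / 2 * n|
        ≤ m * |1 / 2 * m - n| + n * |2 * m - 1 / 2 * n| := by gcongr
      _ ≤ 1 / 2 := by
        have hn : n = 1 - m := by linarith
        rw [hn]
        have hm1 : m ≤ 1 := by linarith
        rcases abs_cases (1 / 2 * m - (1 - m)) with ⟨h1, h1'⟩ | ⟨h1, h1'⟩
        · rcases abs_cases (2 * m - 1 / 2 * (1 - m)) with ⟨h2, h2'⟩ | ⟨h2, h2'⟩
          · rw [h1, h2]; nlinarith [sq_nonneg (m - 1)]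
          · exfalso; linarith
        · rcases abs_cases (2 * m - 1 / 2 * (1 - m)) with ⟨h2, h2'⟩ | ⟨h2, h2'⟩
          · rw [h1, h2]; nlinarith [sq_nonneg (2 * m - 1)]
          · rw [h1, h2]; nlinarith

end general

section L1

variable {𝕜 : Type*} [RCLike 𝕜] {Ω : Type*} [MeasurableSpace Ω] {μ : Measure Ω}

lemma memInd {s : Set Ω} (hs : MeasurableSet s) (f : Lp 𝕜 1 μ) :
    MemLp (s.indicator (f : Ω → 𝕜)) 1 μ := (Lp.memLp f).indicator hs

/-- Multiplication by the indicator function of a measurable set. -/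
noncomputable def cutF {s : Set Ω} (hs : MeasurableSet s) (f : Lp 𝕜 1 μ) : Lp 𝕜 1 μ :=
  (memInd hs f).toLp _

lemma cutF_coe {s : Set Ω} (hs : MeasurableSet s) (f : Lp 𝕜 1 μ) :
    (cutF hs f : Ω → 𝕜) =ᵐ[μ] s.indicator (f : Ω → 𝕜) := (memInd hs f).coeFn_toLp

lemma cutF_add {s : Set Ω} (hs : MeasurableSet s) (f g : Lp 𝕜 1 μ) :
    cutF hs (f + g) = cutF hs f + cutF hs g := by
  ext1
  have h1 := cutF_coe hs (f + g)
  have h2 := Lp.coeFn_add (cutF hs f) (cutF hs g)
  have h3 := cutF_coe hs f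
  have h4 := cutF_coe hs g
  have h5 := Lp.coeFn_add f g
  filter_upwards [h1, h2, h3, h4, h5] with t h1 h2 h3 h4 h5
  rw [h1, h2, Pi.add_apply, h3, h4]
  by_cases ht : t ∈ s
  · simp only [Set.indicator_of_mem ht]
    rw [h5, Pi.add_apply]
  · simp only [Set.indicator_of_notMem ht, add_zero]

lemma cutF_smul {s : Set Ω} (hs : MeasurableSet s) (c : 𝕜) (f : Lp 𝕜 1 μ) :
    cutF hs (c • f) = c • cutF hs f := by
  ext1
  have h1 := cutF_coe hs (c • f)
  have h2 := Lp.coeFn_smul c (cutF hs f)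
  have h3 := cutF_coe hs f
  have h5 := Lp.coeFn_smul c f
  filter_upwards [h1, h2, h3, h5] with t h1 h2 h3 h5
  rw [h1, h2, Pi.smul_apply, h3]
  by_cases ht : t ∈ s
  · simp only [Set.indicator_of_mem ht]
    rw [h5, Pi.smul_apply]
  · simp only [Set.indicator_of_notMem ht, smul_zero]

lemma norm_cutF_le {s : Set Ω} (hs : MeasurableSet s) (f : Lp 𝕜 1 μ) :
    ‖cutF hs f‖ ≤ 1 * ‖f‖ := by
  rw [one_mul]
  refine Lp.norm_le_norm_of_ae_le ?_
  filter_upwards [cutF_coe hs f] with t h1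
  rw [h1]
  exact norm_indicator_le_norm_self _ _

/-- Multiplication by the indicator function of a measurable set, as an operator. -/
noncomputable def cut (𝕜 : Type*) [RCLike 𝕜] (μ : Measure Ω) {s : Set Ω} (hs : MeasurableSet s) :
    Lp 𝕜 1 μ →L[𝕜] Lp 𝕜 1 μ :=
  LinearMap.mkContinuous
    { toFun := cutF hs
      map_add' := cutF_add hs
      map_smul' := cutF_smul hs } 1 (norm_cutF_le hs)

lemma cut_coeFn {s : Set Ω} (hs : MeasurableSet s) (f : Lp 𝕜 1 μ) :
    (cut 𝕜 μ hs f : Ω → 𝕜) =ᵐ[μ] s.indicator (f : Ω → 𝕜) := cutF_coe hs f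

lemma cut_sub_coeFn {s : Set Ω} (hs : MeasurableSet s) (f : Lp 𝕜 1 μ) :
    ((f - cut 𝕜 μ hs f : Lp 𝕜 1 μ) : Ω → 𝕜) =ᵐ[μ] sᶜ.indicator (f : Ω → 𝕜) := by
  filter_upwards [Lp.coeFn_sub f (cut 𝕜 μ hs f), cut_coeFn hs f] with t h1 h2
  rw [h1, Pi.sub_apply, h2]
  by_cases ht : t ∈ s
  · simp [ht]
  · simp [ht]

lemma norm_cut {s : Set Ω} (hs : MeasurableSet s) (f : Lp 𝕜 1 μ) :
    ‖f‖ = ‖cut 𝕜 μ hs f‖ + ‖f - cut 𝕜 μ hs f‖ := by
  have hi : Integrable (fun t => ‖f t‖) μ := (L1.integrable_coeFn f).norm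
  rw [L1.norm_eq_integral_norm, L1.norm_eq_integral_norm, L1.norm_eq_integral_norm,
    ← integral_add_compl hs hi]
  congr 1
  · rw [← integral_indicator hs]
    refine integral_congr_ae ?_
    filter_upwards [cut_coeFn hs f] with t h1
    rw [h1]
    by_cases ht : t ∈ s <;> simp [ht]
  · rw [← integral_indicator hs.compl]
    refine integral_congr_ae ?_
    filter_upwards [cut_sub_coeFn hs f] with t h1
    rw [h1]
    by_cases ht : t ∈ s <;> simp [ht]

end L1

section real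

variable {Ω : Type*} [MeasurableSpace Ω] {μ : Measure Ω}

/-- The functional `h ↦ ∫_S h - ∫_{Sᶜ} h`. -/
noncomputable def signFun (μ : Measure Ω) {S : Set Ω} (hS : MeasurableSet S) :
    Lp ℝ 1 μ →L[ℝ] ℝ :=
  (L1.integralCLM (α := Ω) (E := ℝ) (μ := μ)).comp
    (cut ℝ μ hS - (ContinuousLinearMap.id ℝ (Lp ℝ 1 μ) - cut ℝ μ hS))

lemma signFun_apply {S : Set Ω} (hS : MeasurableSet S) (h : Lp ℝ 1 μ) :
    signFun μ hS h = ∫ t, (S.indicator h t - Sᶜ.indicator h t) ∂μ := by
  have e : signFun μ hS h = L1.integral (cut ℝ μ hS h - (h - cut ℝ μ hS h)) := by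
    rw [L1.integral_eq]
    rfl
  rw [e, L1.integral_eq_integral]
  refine integral_congr_ae ?_
  filter_upwards [Lp.coeFn_sub (cut ℝ μ hS h) (h - cut ℝ μ hS h), cut_coeFn hS h,
    cut_sub_coeFn hS h] with t h1 h2 h3
  rw [h1, Pi.sub_apply, h2, h3]

lemma signFun_le {S : Set Ω} (hS : MeasurableSet S) (h : Lp ℝ 1 μ) :
    ‖signFun μ hS h‖ ≤ ‖h‖ := by
  rw [signFun_apply, L1.norm_eq_integral_norm]
  refine norm_integral_le_of_norm_le (L1.integrable_coeFn h).norm ?_
  refine Filter.Eventually.of_forall fun t => ?_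
  by_cases ht : t ∈ S <;> simp [ht]

/-- The functional `signFun` norms every function that is nonnegative on `S` and nonpositive
outside `S`. -/
lemma signFun_eq {S : Set Ω} (hS : MeasurableSet S) (h : Lp ℝ 1 μ)
    (h1 : ∀ᵐ t ∂μ, t ∈ S → 0 ≤ h t) (h2 : ∀ᵐ t ∂μ, t ∉ S → h t ≤ 0) :
    signFun μ hS h = ‖h‖ := by
  rw [signFun_apply, L1.norm_eq_integral_norm]
  refine integral_congr_ae ?_
  filter_upwards [h1, h2] with t h1 h2
  by_cases ht : t ∈ S
  · simp [ht, abs_of_nonneg (h1 ht)]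
  · simp [ht, abs_of_nonpos (h2 ht)]

/-- expansion of a quadratic form -/
lemma quad {X : Type*} [NormedAddCommGroup X] [NormedSpace ℝ X]
    (A : ContinuousMultilinearMap ℝ (fun _ : Fin 2 => X) X) (F : X →L[ℝ] ℝ) (u w : X) (b c : ℝ) :
    F (A (fun _ => b • u + c • w)) = b ^ 2 * F (A (fun _ => u))
      + b * c * (F (A ![u, w]) + F (A ![w, u])) + c ^ 2 * F (A (fun _ => w)) := by
  have e : ∀ v : X, (fun _ : Fin 2 => v) = ![v, v] := fun v => by
    funext i; fin_cases i <;> rfl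
  rw [e, e, e]
  have h0 : ∀ a b v : X, Function.update ![a, b] 0 v = ![v, b] := fun a b v => by
    funext i; fin_cases i <;> simp
  have h1 : ∀ a b v : X, Function.update ![a, b] 1 v = ![a, v] := fun a b v => by
    funext i; fin_cases i <;> simp
  have a0 : ∀ a b v : X, A ![a + b, v] = A ![a, v] + A ![b, v] := fun a b v => by
    have := A.map_update_add ![a, v] 0 a b
    simpa only [h0] using this
  have a1 : ∀ a b v : X, A ![v, a + b] = A ![v, a] + A ![v, b] := fun a b v => by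
    have := A.map_update_add ![v, a] 1 a b
    simpa only [h1] using this
  have s0 : ∀ (r : ℝ) (a v : X), A ![r • a, v] = r • A ![a, v] := fun r a v => by
    have := A.map_update_smul ![a, v] 0 r a
    simpa only [h0] using this
  have s1 : ∀ (r : ℝ) (a v : X), A ![v, r • a] = r • A ![v, a] := fun r a v => by
    have := A.map_update_smul ![v, a] 1 r a
    simpa only [h1] using this
  rw [a0, a1, a1]
  simp only [s0, s1, map_add, map_smul, smul_eq_mul]
  ring

/-- The lower bound: `‖P x‖ ≤ 2 v(P)`. -/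
lemma norm_le_two (A : ContinuousMultilinearMap ℝ (fun _ : Fin 2 => Lp ℝ 1 μ) (Lp ℝ 1 μ))
    (x : Lp ℝ 1 μ) (hx : ‖x‖ ≤ 1) : ‖A fun _ => x‖ ≤ 2 * numRadius A := by
  have hv := numRadius_nonneg A
  set g : Lp ℝ 1 μ := A fun _ => x with hg
  by_cases hg0 : g = 0
  · rw [hg0, norm_zero]; positivity
  have hgn : ‖g‖ ≠ 0 := norm_ne_zero_iff.2 hg0
  -- the sign pattern of `g`
  set S : Set Ω := {t | 0 ≤ g t} with hSdef
  have hS : MeasurableSet S :=
    measurableSet_le measurable_const (Lp.stronglyMeasurable g).measurable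
  have hFg : signFun μ hS g = ‖g‖ := signFun_eq hS g
    (Filter.Eventually.of_forall fun t ht => ht)
    (Filter.Eventually.of_forall fun t ht => (not_le.1 ht).le)
  have hF1 : ‖signFun μ hS‖ = 1 := by
    refine le_antisymm (ContinuousLinearMap.opNorm_le_bound _ zero_le_one fun h => by
      rw [one_mul]; exact signFun_le hS h) ?_
    have h1 := (signFun μ hS).le_opNorm g
    rw [hFg, norm_norm] at h1
    exact le_of_mul_le_mul_right (by simpa using h1) (lt_of_le_of_ne (norm_nonneg _) hgn.symm)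
  -- the set where `x` has the sign of `g`
  set T : Set Ω := {t | (t ∈ S ∧ 0 ≤ x t) ∨ (t ∉ S ∧ x t ≤ 0)} with hTdef
  have hxm := (Lp.stronglyMeasurable x).measurable
  have hT : MeasurableSet T :=
    (hS.inter (measurableSet_le measurable_const hxm)).union
      (hS.compl.inter (measurableSet_le hxm measurable_const))
  set x1 : Lp ℝ 1 μ := cut ℝ μ hT x with hx1
  set x2 : Lp ℝ 1 μ := -(x - cut ℝ μ hT x) with hx2
  have hx12 : x = (1 : ℝ) • x1 + (-1 : ℝ) • x2 := by
    rw [hx1, hx2, one_smul, neg_smul, one_smul]; abel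
  have hnorm : ‖x1‖ + ‖x2‖ = ‖x‖ := by
    rw [hx1, hx2, norm_neg]; exact (norm_cut hT x).symm
  have c1 : (x1 : Ω → ℝ) =ᵐ[μ] T.indicator x := cut_coeFn hT x
  have c2 : (x2 : Ω → ℝ) =ᵐ[μ] fun t => -(Tᶜ.indicator x t) := by
    filter_upwards [Lp.coeFn_neg (x - cut ℝ μ hT x), cut_sub_coeFn hT x] with t h1 h2
    rw [hx2, h1, Pi.neg_apply, h2]
  -- all nonnegative combinations are normed by the functional
  have hcomb : ∀ b c : ℝ, 0 ≤ b → 0 ≤ c →
      signFun μ hS (b • x1 + c • x2) = ‖b • x1 + c • x2‖ := by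
    intro b c hb hc
    have c3 : ((b • x1 + c • x2 : Lp ℝ 1 μ) : Ω → ℝ) =ᵐ[μ]
        fun t => b * T.indicator x t + c * (-(Tᶜ.indicator x t)) := by
      filter_upwards [Lp.coeFn_add (b • x1) (c • x2), Lp.coeFn_smul b x1, Lp.coeFn_smul c x2,
        c1, c2] with t h1 h2 h3 h4 h5
      rw [h1, Pi.add_apply, h2, h3, Pi.smul_apply, Pi.smul_apply, h4, h5]
      rfl
    refine signFun_eq hS _ ?_ ?_
    · filter_upwards [c3] with t h1 ht
      rw [h1]
      by_cases htT : t ∈ T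
      · have h3 : 0 ≤ x t := by
          rcases htT with h | h
          · exact h.2
          · exact absurd ht h.1
        simp only [htT, Set.indicator_of_mem, Set.mem_compl_iff, not_true_eq_false,
          not_false_eq_true, Set.indicator_of_notMem, neg_zero, mul_zero, add_zero]
        positivity
      · have h3 : x t < 0 := by
          by_contra h4
          exact htT (Or.inl ⟨ht, not_lt.1 h4⟩)
        simp only [htT, not_false_eq_true, Set.indicator_of_notMem, mul_zero,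
          Set.mem_compl_iff, Set.indicator_of_mem, zero_add]
        exact mul_nonneg hc (by linarith)
    · filter_upwards [c3] with t h1 ht
      rw [h1]
      by_cases htT : t ∈ T
      · have h3 : x t ≤ 0 := by
          rcases htT with h | h
          · exact absurd h.1 ht
          · exact h.2
        simp only [htT, Set.indicator_of_mem, Set.mem_compl_iff, not_true_eq_false,
          not_false_eq_true, Set.indicator_of_notMem, neg_zero, mul_zero, add_zero]
        exact mul_nonpos_of_nonneg_of_nonpos hb h3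
      · have h3 : 0 < x t := by
          by_contra h4
          exact htT (Or.inr ⟨ht, not_lt.1 h4⟩)
        simp only [htT, not_false_eq_true, Set.indicator_of_notMem, mul_zero,
          Set.mem_compl_iff, Set.indicator_of_mem, zero_add]
        exact mul_nonpos_of_nonneg_of_nonpos hc (by linarith)
  have hcn : ∀ b c : ℝ, 0 ≤ b → 0 ≤ c → ‖b • x1 + c • x2‖ ≤ b * ‖x1‖ + c * ‖x2‖ := by
    intro b c hb hc
    refine (norm_add_le _ _).trans ?_
    rw [norm_smul, norm_smul, Real.norm_of_nonneg hb, Real.norm_of_nonneg hc]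
  set a := ‖x1‖ with ha
  set b := ‖x2‖ with hb
  have ha0 : 0 ≤ a := norm_nonneg _
  have hb0 : 0 ≤ b := norm_nonneg _
  have hab : a + b ≤ 1 := by rw [hnorm]; exact hx
  have q1 : |signFun μ hS (A fun _ => x1)| ≤ numRadius A * a ^ 2 := by
    refine hom_bound A hF1 ?_
    have := hcomb 1 0 zero_le_one le_rfl
    simpa using this
  have q2 : |signFun μ hS (A fun _ => x2)| ≤ numRadius A * b ^ 2 := by
    refine hom_bound A hF1 ?_
    have := hcomb 0 1 le_rfl zero_le_one
    simpa using this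
  have q3 : |signFun μ hS (A fun _ => b • x1 + a • x2)| ≤ numRadius A * (2 * (a * b)) ^ 2 := by
    refine (hom_bound A hF1 (hcomb b a hb0 ha0)).trans ?_
    refine mul_le_mul_of_nonneg_left ?_ hv
    have h1 := hcn b a hb0 ha0
    have h2 : ‖b • x1 + a • x2‖ ≤ 2 * (a * b) := by
      refine h1.trans (le_of_eq ?_)
      ring
    exact pow_le_pow_left₀ (norm_nonneg _) h2 2
  have hgx : ‖g‖ = signFun μ hS (A fun _ => (1 : ℝ) • x1 + (-1 : ℝ) • x2) := by
    rw [← hx12, ← hFg]
  rcases ha0.eq_or_lt with ha1 | hapos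
  · have hx10 : x1 = 0 := norm_eq_zero.1 ha1.symm
    have e1 : (1 : ℝ) • x1 + (-1 : ℝ) • x2 = (-1 : ℝ) • x2 := by rw [hx10]; simp
    have e2 : signFun μ hS (A fun _ => (-1 : ℝ) • x2) = signFun μ hS (A fun _ => x2) := by
      have := quad A (signFun μ hS) (0 : Lp ℝ 1 μ) x2 0 (-1)
      rw [zero_smul, zero_add] at this
      rw [this]; ring
    rw [hgx, e1, e2]
    have h3 := (le_abs_self _).trans q2
    have h4 : numRadius A * b ^ 2 ≤ numRadius A * 1 :=
      mul_le_mul_of_nonneg_left (by nlinarith) hv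
    linarith
  rcases hb0.eq_or_lt with hb1 | hbpos
  · have hx20 : x2 = 0 := norm_eq_zero.1 hb1.symm
    have e1 : (1 : ℝ) • x1 + (-1 : ℝ) • x2 = x1 := by rw [hx20]; simp
    rw [hgx, e1]
    have h3 := (le_abs_self _).trans q1
    have h4 : numRadius A * a ^ 2 ≤ numRadius A * 1 :=
      mul_le_mul_of_nonneg_left (by nlinarith) hv
    linarith
  have key : (a * b) * signFun μ hS (A fun _ => (1 : ℝ) • x1 + (-1 : ℝ) • x2)
      = (a + b) * b * signFun μ hS (A fun _ => x1) + (a + b) * a * signFun μ hS (A fun _ => x2)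
        - signFun μ hS (A fun _ => b • x1 + a • x2) := by
    rw [quad, quad]; ring
  have habpos : 0 < a * b := mul_pos hapos hbpos
  rw [abs_le] at q1 q2 q3
  have hfin : (a * b) * ‖g‖ ≤ (a * b) * (2 * numRadius A) := by
    rw [hgx, key]
    have k1 : (a + b) * b * signFun μ hS (A fun _ => x1) ≤
        (a + b) * b * (numRadius A * a ^ 2) :=
      mul_le_mul_of_nonneg_left q1.2 (by positivity)
    have k2 : (a + b) * a * signFun μ hS (A fun _ => x2) ≤
        (a + b) * a * (numRadius A * b ^ 2) :=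
      mul_le_mul_of_nonneg_left q2.2 (by positivity)
    have k3 : (a + b) ^ 2 + 4 * (a * b) ≤ 2 := by nlinarith [sq_nonneg (a - b)]
    have k4 : (a * b) * numRadius A * ((a + b) ^ 2 + 4 * (a * b)) ≤
        (a * b) * numRadius A * 2 :=
      mul_le_mul_of_nonneg_left k3 (by positivity)
    nlinarith [q3.1]
  exact le_of_mul_le_mul_left hfin habpos

end real

/-- the measure of the problem -/
noncomputable abbrev lam : Measure ℝ := volume.restrict (Set.Icc (0 : ℝ) 1)

theorem exists_poly (𝕜 : Type*) [RCLike 𝕜] :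
    ∃ A : ContinuousMultilinearMap 𝕜 (fun _ : Fin 2 => L1I 𝕜) (L1I 𝕜),
      polyNorm A = 1 ∧ numRadius A ≤ 1 / 2 := by
  have hs : MeasurableSet (Set.Icc (0 : ℝ) (1 / 2)) := measurableSet_Icc
  have hs' : MeasurableSet (Set.Ioc (1 / 2 : ℝ) 1) := measurableSet_Ioc
  have m1 : lam.real (Set.Icc (0 : ℝ) (1 / 2)) = 1 / 2 := by
    rw [measureReal_def, Measure.restrict_apply hs,
      Set.inter_eq_left.2 (Set.Icc_subset_Icc le_rfl (by norm_num)), Real.volume_Icc]
    norm_num
  have hsub : Set.Ioc (1 / 2 : ℝ) 1 ⊆ Set.Icc (0 : ℝ) 1 := fun t ht => ⟨by linarith [ht.1], ht.2⟩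
  have m2 : lam.real (Set.Ioc (1 / 2 : ℝ) 1) = 1 / 2 := by
    rw [measureReal_def, Measure.restrict_apply hs', Set.inter_eq_left.2 hsub, Real.volume_Ioc]
    norm_num
  have hdn : ‖(((2 : ℝ)) : 𝕜)‖ = 2 := by
    rw [RCLike.norm_ofReal]; norm_num
  refine index_le_half (cut 𝕜 lam hs) (norm_cut hs)
    (y := indicatorConstLp 1 hs (measure_ne_top _ _) (((2 : ℝ)) : 𝕜))
    (z := indicatorConstLp 1 hs' (measure_ne_top _ _) (((2 : ℝ)) : 𝕜)) ?_ ?_ ?_ ?_
  · ext1
    filter_upwards [cut_coeFn hs (indicatorConstLp 1 hs (measure_ne_top lam _)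
      (((2 : ℝ)) : 𝕜)), indicatorConstLp_coeFn (p := 1) (hs := hs)
      (hμs := measure_ne_top lam _) (c := (((2 : ℝ)) : 𝕜))] with t h1 h2
    rw [h1]
    by_cases ht : t ∈ Set.Icc (0 : ℝ) (1 / 2)
    · rw [Set.indicator_of_mem ht]
    · rw [Set.indicator_of_notMem ht, h2, Set.indicator_of_notMem ht]
  · rw [norm_indicatorConstLp one_ne_zero ENNReal.one_ne_top, m1, hdn]
    norm_num
  · ext1
    filter_upwards [cut_coeFn hs (indicatorConstLp 1 hs' (measure_ne_top lam _)
      (((2 : ℝ)) : 𝕜)), indicatorConstLp_coeFn (p := 1) (hs := hs')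
      (hμs := measure_ne_top lam _) (c := (((2 : ℝ)) : 𝕜)),
      Lp.coeFn_zero 𝕜 1 lam] with t h1 h2 h3
    rw [h1, h3]
    by_cases ht : t ∈ Set.Icc (0 : ℝ) (1 / 2)
    · have ht' : t ∉ Set.Ioc (1 / 2 : ℝ) 1 := fun h => by linarith [h.1, ht.2]
      rw [Set.indicator_of_mem ht, h2, Set.indicator_of_notMem ht']
      rfl
    · rw [Set.indicator_of_notMem ht]
      rfl
  · rw [norm_indicatorConstLp one_ne_zero ENNReal.one_ne_top, m2, hdn]
    norm_num

theorem index_le (𝕜 : Type*) [RCLike 𝕜] : polyIndex 𝕜 (L1I 𝕜) 2 ≤ 1 / 2 := by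
  obtain ⟨A, h1, h2⟩ := exists_poly 𝕜
  have hmem : numRadius A ∈ {r : ℝ |
      ∃ A : ContinuousMultilinearMap 𝕜 (fun _ : Fin 2 => L1I 𝕜) (L1I 𝕜),
      polyNorm A = 1 ∧ r = numRadius A} := ⟨A, h1, rfl⟩
  refine (csInf_le ⟨0, ?_⟩ hmem).trans h2
  rintro r ⟨A, -, rfl⟩
  exact numRadius_nonneg A

/-- The second polynomial numerical index of the real space `L₁[0,1]` is `1/2`, and that of the
complex space `L₁[0,1]` is at most `1/2`; so neither of them is `1`. -/
theorem result : polyIndex ℝ (L1I ℝ) 2 = 1 / 2 ∧ polyIndex ℂ (L1I ℂ) 2 ≤ 1 / 2 := by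
  refine ⟨le_antisymm (index_le ℝ) ?_, index_le ℂ⟩
  obtain ⟨A, h1, h2⟩ := exists_poly ℝ
  refine le_csInf ⟨_, A, h1, rfl⟩ ?_
  rintro r ⟨A, hA, rfl⟩
  have h1 : polyNorm A ≤ 2 * numRadius A := by
    refine Real.sSup_le ?_ (by have := numRadius_nonneg A; positivity)
    rintro r ⟨x, hx, rfl⟩
    exact norm_le_two A x hx
  rw [hA] at h1
  linarith

end Pool.Agent.Results.MP_6cf06e_an.IntegrableFunctions
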