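import Mathlib

/-!
# The second polynomial numerical index of the real spaces `C(K)`

For every compact Hausdorff space `K` with at least two points, in particular for `K = [0,1]`, the
second polynomial numerical index of the real space `C(K)` is equal to `1/2`.
-/

set_option autoImplicit false

namespace Pool.Agent.Results.MP_6cf06e_an.RealContinuous

/-- The norm `sup_{‖x‖ ≤ 1} ‖P x‖` of the homogeneous polynomial `P x = A (x, …, x)`. -/
noncomputable def polyNorm {X : Type*} [NormedAddCommGroup X] [NormedSpace ℝ X] {k : ℕ}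
    (A : ContinuousMultilinearMap ℝ (fun _ : Fin k => X) X) : ℝ :=
  sSup {r : ℝ | ∃ x : X, ‖x‖ ≤ 1 ∧ r = ‖A fun _ => x‖}

/-- The numerical radius of the homogeneous polynomial `P x = A (x, …, x)`: the supremum of
`|f (P x)|` over all pairs `(x, f)` of norm one vectors and norm one functionals with `f x = 1`. -/
noncomputable def numRadius {X : Type*} [NormedAddCommGroup X] [NormedSpace ℝ X] {k : ℕ}
    (A : ContinuousMultilinearMap ℝ (fun _ : Fin k => X) X) : ℝ :=
  sSup {r : ℝ | ∃ (x : X) (f : X →L[ℝ] ℝ), ‖x‖ = 1 ∧ ‖f‖ = 1 ∧ f x = 1 ∧ r = |f (A fun _ => x)|}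

/-- The `k`-th polynomial numerical index of the real normed space `X`: the infimum of the numerical
radii of the `k`-homogeneous polynomials of norm one. -/
noncomputable def polyIndex (X : Type*) [NormedAddCommGroup X] [NormedSpace ℝ X] (k : ℕ) : ℝ :=
  sInf {r : ℝ | ∃ A : ContinuousMultilinearMap ℝ (fun _ : Fin k => X) X,
    polyNorm A = 1 ∧ r = numRadius A}

section general

variable {X : Type*} [NormedAddCommGroup X] [NormedSpace ℝ X] {k : ℕ}

lemma norm_apply_le (A : ContinuousMultilinearMap ℝ (fun _ : Fin k => X) X) {x : X}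
    (hx : ‖x‖ ≤ 1) : ‖A fun _ => x‖ ≤ ‖A‖ := by
  refine (A.le_opNorm _).trans ?_
  have h1 : (∏ _i : Fin k, ‖x‖) ≤ 1 := by
    rw [Finset.prod_const]
    exact pow_le_one₀ (norm_nonneg _) hx
  calc ‖A‖ * ∏ _i : Fin k, ‖x‖ ≤ ‖A‖ * 1 := mul_le_mul_of_nonneg_left h1 (norm_nonneg _)
    _ = ‖A‖ := mul_one _

lemma bdd_numRadius (A : ContinuousMultilinearMap ℝ (fun _ : Fin k => X) X) :
    BddAbove {r : ℝ | ∃ (x : X) (f : X →L[ℝ] ℝ), ‖x‖ = 1 ∧ ‖f‖ = 1 ∧ f x = 1 ∧
      r = |f (A fun _ => x)|} := by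
  refine ⟨‖A‖, ?_⟩
  rintro r ⟨x, f, hx, hf, -, rfl⟩
  refine (f.le_opNorm _).trans ?_
  rw [hf, one_mul]
  exact norm_apply_le A hx.le

lemma le_numRadius (A : ContinuousMultilinearMap ℝ (fun _ : Fin k => X) X) {x : X}
    {f : X →L[ℝ] ℝ} (hx : ‖x‖ = 1) (hf : ‖f‖ = 1) (hfx : f x = 1) :
    |f (A fun _ => x)| ≤ numRadius A :=
  le_csSup (bdd_numRadius A) ⟨x, f, hx, hf, hfx, rfl⟩

lemma numRadius_nonneg (A : ContinuousMultilinearMap ℝ (fun _ : Fin k => X) X) :
    0 ≤ numRadius A := by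
  refine Real.sSup_nonneg ?_
  rintro r ⟨x, f, -, -, -, rfl⟩
  exact abs_nonneg _

end general

section CK

variable {K : Type*} [TopologicalSpace K] [CompactSpace K]

/-- Evaluation at a point, composed with a sign, as a norming functional. -/
lemma eval_le (A : ContinuousMultilinearMap ℝ (fun _ : Fin 2 => C(K, ℝ)) C(K, ℝ)) {x : C(K, ℝ)}
    {t : K} (hx : ‖x‖ ≤ 1) (ht : |x t| = 1) : |A (fun _ => x) t| ≤ numRadius A := by
  have hx1 : ‖x‖ = 1 := le_antisymm hx (by
    have := ContinuousMap.norm_coe_le_norm x t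
    rw [Real.norm_eq_abs, ht] at this
    exact this)
  set f : C(K, ℝ) →L[ℝ] ℝ := (x t) • ContinuousMap.evalCLM ℝ t with hf
  have hfa : ∀ g : C(K, ℝ), f g = x t * g t := fun g => rfl
  have hxx : x t * x t = 1 := by
    rw [← abs_mul_abs_self, ht]; norm_num
  have hfn : ‖f‖ = 1 := by
    refine le_antisymm (ContinuousLinearMap.opNorm_le_bound _ zero_le_one fun g => ?_) ?_
    · rw [hfa, norm_mul, Real.norm_eq_abs, ht]
      exact mul_le_mul_of_nonneg_left (ContinuousMap.norm_coe_le_norm g t) zero_le_one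
    · have h1 := f.le_opNorm x
      rw [hfa, hxx, hx1, mul_one, norm_one] at h1
      exact h1
  have h1 := le_numRadius A hx1 hfn (by rw [hfa, hxx])
  rw [hfa, abs_mul, ht, one_mul] at h1
  exact h1

/-- The quadratic form `g ↦ (P g)(t)`. -/
lemma quad (A : ContinuousMultilinearMap ℝ (fun _ : Fin 2 => C(K, ℝ)) C(K, ℝ)) (t : K)
    (u w : C(K, ℝ)) (c : ℝ) :
    A (fun _ => u + c • w) t = A (fun _ => u) t + c * (A ![u, w] t + A ![w, u] t)
      + c ^ 2 * A (fun _ => w) t := by
  have e : ∀ v : C(K, ℝ), (fun _ : Fin 2 => v) = ![v, v] := fun v => by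
    funext i; fin_cases i <;> rfl
  rw [e, e, e]
  have h0 : ∀ a b v : C(K, ℝ), Function.update ![a, b] 0 v = ![v, b] := fun a b v => by
    funext i; fin_cases i <;> simp
  have h1 : ∀ a b v : C(K, ℝ), Function.update ![a, b] 1 v = ![a, v] := fun a b v => by
    funext i; fin_cases i <;> simp
  have a0 : ∀ a b v : C(K, ℝ), A ![a + b, v] = A ![a, v] + A ![b, v] := fun a b v => by
    have := A.map_update_add ![a, v] 0 a b
    simpa only [h0] using this
  have a1 : ∀ a b v : C(K, ℝ), A ![v, a + b] = A ![v, a] + A ![v, b] := fun a b v => by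
    have := A.map_update_add ![v, a] 1 a b
    simpa only [h1] using this
  have s0 : ∀ (r : ℝ) (a v : C(K, ℝ)), A ![r • a, v] = r • A ![a, v] := fun r a v => by
    have := A.map_update_smul ![a, v] 0 r a
    simpa only [h0] using this
  have s1 : ∀ (r : ℝ) (a v : C(K, ℝ)), A ![v, r • a] = r • A ![v, a] := fun r a v => by
    have := A.map_update_smul ![v, a] 1 r a
    simpa only [h1] using this
  rw [a0, a1, a1, s0, s0, s1, s1]
  simp only [ContinuousMap.add_apply, ContinuousMap.smul_apply, smul_eq_mul]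
  ring

/-- The lower bound: `‖P x‖ ≤ 2 v(P)`. -/
lemma norm_le_two (A : ContinuousMultilinearMap ℝ (fun _ : Fin 2 => C(K, ℝ)) C(K, ℝ))
    (x : C(K, ℝ)) (hx : ‖x‖ ≤ 1) : ‖A fun _ => x‖ ≤ 2 * numRadius A := by
  have hv := numRadius_nonneg A
  refine (ContinuousMap.norm_le _ (by positivity)).2 fun t => ?_
  rw [Real.norm_eq_abs]
  set c : ℝ := x t with hc
  have hxt : ∀ s, |x s| ≤ 1 := fun s => (ContinuousMap.norm_coe_le_norm x s).trans hx
  have hc1 : |c| ≤ 1 := hxt t
  rcases hc1.lt_or_eq with hlt | heq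
  swap
  · have := eval_le A hx heq
    linarith
  obtain ⟨hcl, hcu⟩ := abs_lt.1 hlt
  have hp : 0 < 1 - c := by linarith
  have hq : 0 < 1 + c := by linarith
  -- the auxiliary function
  let w : C(K, ℝ) := ⟨fun s => min ((1 - x s) / (1 - c)) ((1 + x s) / (1 + c)), by fun_prop⟩
  have hws : ∀ s, w s = min ((1 - x s) / (1 - c)) ((1 + x s) / (1 + c)) := fun s => rfl
  have hw1 : ∀ s, (1 - c) * w s ≤ 1 - x s := fun s => by
    have h1 : w s ≤ (1 - x s) / (1 - c) := min_le_left _ _
    rw [le_div_iff₀ hp] at h1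
    linarith
  have hw2 : ∀ s, (1 + c) * w s ≤ 1 + x s := fun s => by
    have h1 : w s ≤ (1 + x s) / (1 + c) := min_le_right _ _
    rw [le_div_iff₀ hq] at h1
    linarith
  have hw0 : ∀ s, 0 ≤ w s := fun s => by
    have h1 := abs_le.1 (hxt s)
    exact le_min (div_nonneg (by linarith) hp.le) (div_nonneg (by linarith) hq.le)
  have hwt : w t = 1 := by
    rw [hws, ← hc, div_self hp.ne', div_self hq.ne', min_self]
  have hwle : ∀ s, w s ≤ 1 := fun s => by nlinarith [hw1 s, hw2 s]
  have hwn : ‖w‖ ≤ 1 := (ContinuousMap.norm_le _ zero_le_one).2 fun s => by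
    rw [Real.norm_eq_abs, abs_of_nonneg (hw0 s)]; exact hwle s
  set u : C(K, ℝ) := x - c • w with hu
  have hus : ∀ s, u s = x s - c * w s := fun s => rfl
  have hplus : ‖u + (1 : ℝ) • w‖ ≤ 1 := (ContinuousMap.norm_le _ zero_le_one).2 fun s => by
    have e : (u + (1 : ℝ) • w) s = x s + (1 - c) * w s := by
      change u s + 1 * w s = _
      rw [hus]; ring
    rw [e, Real.norm_eq_abs, abs_le]
    have h1 := hw1 s
    have h2 := hw0 s
    have h3 := abs_le.1 (hxt s)
    constructor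
    · nlinarith
    · linarith
  have hminus : ‖u + (-1 : ℝ) • w‖ ≤ 1 := (ContinuousMap.norm_le _ zero_le_one).2 fun s => by
    have e : (u + (-1 : ℝ) • w) s = x s - (1 + c) * w s := by
      change u s + -1 * w s = _
      rw [hus]; ring
    rw [e, Real.norm_eq_abs, abs_le]
    have h1 := hw2 s
    have h2 := hw0 s
    have h3 := abs_le.1 (hxt s)
    constructor
    · linarith
    · nlinarith
  have hpt : |(u + (1 : ℝ) • w) t| = 1 := by
    change |u t + 1 * w t| = 1
    rw [hus, hwt, ← hc]; norm_num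
  have hmt : |(u + (-1 : ℝ) • w) t| = 1 := by
    change |u t + -1 * w t| = 1
    rw [hus, hwt, ← hc]; norm_num
  have b1 := eval_le A hplus hpt
  have b2 := eval_le A hminus hmt
  have b3 := eval_le A hwn (t := t) (by rw [hwt]; norm_num)
  have hxu : x = u + c • w := by rw [hu]; abel
  have key : A (fun _ => x) t = (1 + c) / 2 * A (fun _ => u + (1 : ℝ) • w) t
      + (1 - c) / 2 * A (fun _ => u + (-1 : ℝ) • w) t - (1 - c ^ 2) * A (fun _ => w) t := by
    conv_lhs => rw [hxu]
    rw [quad, quad, quad]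
    ring
  rw [key]
  rw [abs_le] at b1 b2 b3 ⊢
  have h1 : (1 + c) / 2 ≥ 0 := by linarith
  have h2 : (1 - c) / 2 ≥ 0 := by linarith
  have h3 : 1 - c ^ 2 ≥ 0 := by nlinarith
  have h4 : 1 - c ^ 2 ≤ 1 := by nlinarith [sq_nonneg c]
  constructor
  · nlinarith [mul_le_mul_of_nonneg_left b1.1 h1, mul_le_mul_of_nonneg_left b2.1 h2,
      mul_le_mul_of_nonneg_left b3.2 h3, mul_le_mul_of_nonneg_right h4 hv]
  · nlinarith [mul_le_mul_of_nonneg_left b1.2 h1, mul_le_mul_of_nonneg_left b2.2 h2,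
      mul_le_mul_of_nonneg_left b3.1 h3, mul_le_mul_of_nonneg_right h4 hv]

/-- The product of two functions, as a continuous bilinear map. -/
noncomputable def mulMap (K : Type*) [TopologicalSpace K] [CompactSpace K] :
    ContinuousMultilinearMap ℝ (fun _ : Fin 2 => C(K, ℝ)) C(K, ℝ) :=
  ContinuousMultilinearMap.mkPiAlgebra ℝ (Fin 2) C(K, ℝ)

/-- The constant function with the value at `s`. -/
noncomputable def constAt (s : K) : C(K, ℝ) →L[ℝ] C(K, ℝ) :=
  (ContinuousMap.evalCLM ℝ s).smulRight (1 : C(K, ℝ))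

/-- The polynomial `P f = f(s)² - f² / 2`. -/
noncomputable def example₂ (s : K) :
    ContinuousMultilinearMap ℝ (fun _ : Fin 2 => C(K, ℝ)) C(K, ℝ) :=
  (constAt s).compContinuousMultilinearMap (mulMap K) - (1 / 2 : ℝ) • mulMap K

lemma mulMap_apply (f : C(K, ℝ)) : mulMap K (fun _ => f) = f * f := by
  simp [mulMap, ContinuousMultilinearMap.mkPiAlgebra_apply, sq]

lemma example₂_apply (s : K) (f : C(K, ℝ)) :
    example₂ s (fun _ => f) = (f s * f s) • (1 : C(K, ℝ)) - (1 / 2 : ℝ) • (f * f) := by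
  change constAt s (mulMap K fun _ => f) - (1 / 2 : ℝ) • mulMap K (fun _ => f) = _
  rw [mulMap_apply]
  rfl

lemma example₂_apply' (s t : K) (f : C(K, ℝ)) :
    example₂ s (fun _ => f) t = f s ^ 2 - f t ^ 2 / 2 := by
  rw [example₂_apply]
  change (f s * f s) * 1 - (1 / 2 : ℝ) * (f t * f t) = _
  ring

/-- A functional that norms `f` takes the same value at `f²` and at `1`. -/
lemma norming_sq {f : C(K, ℝ)} {F : C(K, ℝ) →L[ℝ] ℝ} (hf : ‖f‖ = 1) (hF : ‖F‖ = 1)
    (hFf : F f = 1) : F (f * f) = F 1 := by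
  set h : C(K, ℝ) := (1 / 2 : ℝ) • (1 - f * f) with hh
  have hhs : ∀ s, h s = (1 - f s * f s) / 2 := fun s => by
    change (1 / 2 : ℝ) * (1 - f s * f s) = _
    ring
  have hfs : ∀ s, |f s| ≤ 1 := fun s => (ContinuousMap.norm_coe_le_norm f s).trans hf.le
  have h1 : ‖f + h‖ ≤ 1 := (ContinuousMap.norm_le _ zero_le_one).2 fun s => by
    change |f s + h s| ≤ 1
    rw [hhs, abs_le]
    have := abs_le.1 (hfs s)
    constructor <;> nlinarith
  have h2 : ‖f - h‖ ≤ 1 := (ContinuousMap.norm_le _ zero_le_one).2 fun s => by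
    change |f s - h s| ≤ 1
    rw [hhs, abs_le]
    have := abs_le.1 (hfs s)
    constructor <;> nlinarith
  have h3 : F (f + h) ≤ 1 := by
    have := (le_abs_self _).trans (F.le_opNorm (f + h))
    rw [hF, one_mul] at this
    exact this.trans h1
  have h4 : F (f - h) ≤ 1 := by
    have := (le_abs_self _).trans (F.le_opNorm (f - h))
    rw [hF, one_mul] at this
    exact this.trans h2
  rw [map_add, hFf] at h3
  rw [map_sub, hFf] at h4
  have h5 : F h = 0 := by linarith
  rw [hh, map_smul, map_sub, smul_eq_mul] at h5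
  linarith

lemma numRadius_example [Nontrivial K] (s : K) : numRadius (example₂ s) ≤ 1 / 2 := by
  refine Real.sSup_le ?_ (by norm_num)
  rintro r ⟨f, F, hf, hF, hFf, rfl⟩
  have h1 : F (example₂ s fun _ => f) = (f s ^ 2 - 1 / 2) * F 1 := by
    rw [example₂_apply, map_sub, map_smul, map_smul, norming_sq hf hF hFf]
    simp only [smul_eq_mul]
    ring
  rw [h1, abs_mul]
  have h2 : |F 1| ≤ 1 := by
    have := F.le_opNorm (1 : C(K, ℝ))
    rw [hF, one_mul] at this
    exact this.trans ((ContinuousMap.norm_le _ zero_le_one).2 fun _ => by simp)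
  have h3 : |f s ^ 2 - 1 / 2| ≤ 1 / 2 := by
    have h4 := abs_le.1 ((ContinuousMap.norm_coe_le_norm f s).trans hf.le)
    rw [abs_le]
    constructor <;> nlinarith
  calc |f s ^ 2 - 1 / 2| * |F 1| ≤ 1 / 2 * 1 :=
        mul_le_mul h3 h2 (abs_nonneg _) (by norm_num)
    _ = 1 / 2 := by norm_num

lemma polyNorm_example [T2Space K] {s t : K} (hst : s ≠ t) : polyNorm (example₂ s) = 1 := by
  have hup : ∀ f : C(K, ℝ), ‖f‖ ≤ 1 → ‖example₂ s fun _ => f‖ ≤ 1 := fun f hf => by
    refine (ContinuousMap.norm_le _ zero_le_one).2 fun r => ?_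
    rw [example₂_apply', Real.norm_eq_abs, abs_le]
    have h1 := abs_le.1 ((ContinuousMap.norm_coe_le_norm f s).trans hf)
    have h2 := abs_le.1 ((ContinuousMap.norm_coe_le_norm f r).trans hf)
    constructor <;> nlinarith
  refine le_antisymm (Real.sSup_le ?_ zero_le_one) ?_
  · rintro r ⟨f, hf, rfl⟩
    exact hup f hf
  · obtain ⟨φ, hφ0, hφ1, hφ⟩ := exists_continuous_zero_one_of_isClosed (s := {t}) (t := {s})
      isClosed_singleton isClosed_singleton (by
        rw [Set.disjoint_singleton]; exact hst.symm)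
    have hφn : ‖φ‖ ≤ 1 := (ContinuousMap.norm_le _ zero_le_one).2 fun r => by
      rw [Real.norm_eq_abs, abs_of_nonneg (hφ r).1]; exact (hφ r).2
    have h1 : (1 : ℝ) ≤ ‖example₂ s fun _ => φ‖ := by
      have h2 := ContinuousMap.norm_coe_le_norm (example₂ s fun _ => φ) t
      have h3 : φ s = 1 := hφ1 rfl
      have h4 : φ t = 0 := hφ0 rfl
      rw [example₂_apply', h3, h4] at h2
      simpa using h2
    exact h1.trans (le_csSup ⟨1, by rintro r ⟨f, hf, rfl⟩; exact hup f hf⟩ ⟨φ, hφn, rfl⟩)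

theorem index_eq (K : Type*) [TopologicalSpace K] [CompactSpace K] [T2Space K] [Nontrivial K] :
    polyIndex C(K, ℝ) 2 = 1 / 2 := by
  obtain ⟨s, t, hst⟩ := exists_pair_ne K
  have hmem : numRadius (example₂ s) ∈ {r : ℝ |
      ∃ A : ContinuousMultilinearMap ℝ (fun _ : Fin 2 => C(K, ℝ)) C(K, ℝ),
      polyNorm A = 1 ∧ r = numRadius A} := ⟨example₂ s, polyNorm_example hst, rfl⟩
  refine le_antisymm ?_ ?_
  · refine (csInf_le ⟨0, ?_⟩ hmem).trans (numRadius_example s)
    rintro r ⟨A, -, rfl⟩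
    exact numRadius_nonneg A
  · refine le_csInf ⟨_, hmem⟩ ?_
    rintro r ⟨A, hA, rfl⟩
    have h1 : polyNorm A ≤ 2 * numRadius A := by
      refine Real.sSup_le ?_ (by have := numRadius_nonneg A; positivity)
      rintro r ⟨x, hx, rfl⟩
      exact norm_le_two A x hx
    rw [hA] at h1
    linarith

end CK

/-- The second polynomial numerical index of the real space `C[0,1]` is `1/2`; the same holds for
the real space `C(K)` for every compact Hausdorff space `K` with at least two points. -/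
theorem result :
    polyIndex C(unitInterval, ℝ) 2 = 1 / 2 ∧
    ∀ (K : Type*) [TopologicalSpace K] [CompactSpace K] [T2Space K] [Nontrivial K],
      polyIndex C(K, ℝ) 2 = 1 / 2 :=
  ⟨index_eq unitInterval, fun K _ _ _ _ => index_eq K⟩

end Pool.Agent.Results.MP_6cf06e_an.RealContinuous
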